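import Mathlib.Computability.TuringDegree
import Mathlib.Computability.Halting
import Mathlib.Computability.Primrec.List

/-!
# Tardy sets: definitions (MP_d46290_lc)
-/

open Nat.Partrec (Code)

namespace Tardy

/-- the c.e. set with index `c`: the inputs on which the program `c` halts -/
def W (c : Code) : Set ℕ := {x | (Code.eval c x).Dom}

/-- its stage `s` approximation: the inputs on which `c` halts within `s` steps
(a finite set, contained in `{0, …, s - 1}`) -/
def Wat (c : Code) (s : ℕ) : Set ℕ := {x | (Code.evaln s c x).isSome = true}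

/-- `(X₁ - X₂) ∪ (X₃ - X₄) ∪ …`, the last set standing alone if their number is odd -/
def comb : List (Set ℕ) → Set ℕ
  | [] => ∅
  | [X] => X
  | X :: Y :: L => (X \ Y) ∪ comb L

/-- An `m`-c.e. presentation is a list `P` of `m` indices of c.e. sets; this is the set it
presents. -/
def presented (P : List Code) : Set ℕ := comb (P.map W)

/-- the stage `s` approximation of the presented set -/
def presentedAt (P : List Code) (s : ℕ) : Set ℕ := comb (P.map fun c => Wat c s)

/-- `(E s)` is a computable enumeration of `A`: a computable increasing sequence of finite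
sets, given as lists, with union `A`. -/
structure Enumerates (E : ℕ → List ℕ) (A : Set ℕ) : Prop where
  computable : Computable E
  mono : ∀ s x, x ∈ E s → x ∈ E (s + 1)
  union : ∀ x, x ∈ A ↔ ∃ s, x ∈ E s

/-- `A`, with its enumeration `E`, is `n`-tardy: for every nondecreasing computable `p` some
`n`-c.e. presentation `P` of the complement of `A` satisfies
`x ∈ P_s → x ∉ A_{p(s)}` for all `x`, `s`. -/
def TardyFor (n : ℕ) (A : Set ℕ) (E : ℕ → List ℕ) : Prop :=
  ∀ p : ℕ → ℕ, Monotone p → Computable p →
    ∃ P : List Code, P.length = n ∧ presented P = Aᶜ ∧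
      ∀ x s, x ∈ presentedAt P s → x ∉ E (p s)

/-- `A`, with its enumeration `E`, is almost prompt: for some nondecreasing computable `p`,
every presentation `P` (of any length `m ≥ 1`) of the complement of `A` has some `x`, `s` with
`x ∈ P_s` and `x ∈ A_{p(s)}`. -/
def PromptFor (A : Set ℕ) (E : ℕ → List ℕ) : Prop :=
  ∃ p : ℕ → ℕ, Monotone p ∧ Computable p ∧
    ∀ P : List Code, P ≠ [] → presented P = Aᶜ → ∃ x s, x ∈ presentedAt P s ∧ x ∈ E (p s)

/-- `A` is a c.e. set and `n`-tardy (this does not depend on the enumeration). -/
def IsTardy (n : ℕ) (A : Set ℕ) : Prop := ∃ E, Enumerates E A ∧ TardyFor n A E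

/-- `A` is a c.e. set and very tardy, that is, not almost prompt. -/
def VeryTardy (A : Set ℕ) : Prop := ∃ E, Enumerates E A ∧ ¬ PromptFor A E

open Classical in
/-- the characteristic function of `A`, as a (total) partial function -/
noncomputable def chi (A : Set ℕ) : ℕ →. ℕ := fun x => Part.some (if x ∈ A then 1 else 0)

/-- `A` is computed by `B`. -/
def TuringRed (A B : Set ℕ) : Prop := TuringReducible (chi A) (chi B)

/-- `A` is properly `(n+1)`-tardy. -/
def ProperlyTardy (n : ℕ) (A : Set ℕ) : Prop := IsTardy (n + 1) A ∧ ¬ IsTardy n A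

/-- The statement of the question. -/
def Question : Prop :=
  ∀ n : ℕ, 2 ≤ n → ∃ A : Set ℕ, ProperlyTardy n A ∧ ∀ B : Set ℕ, IsTardy n B → ¬ TuringRed A B

end Tardy
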