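import Mathlib.Tactic
import Pool.Agent.Lib.MP_d46290_lc.Defs

open Nat.Partrec (Code)
open Encodable Denumerable

namespace Tardy

/-- halting within `s` steps, as a Boolean -/
def wb (c : Code) (s x : ℕ) : Bool := (Code.evaln s c x).isSome

lemma mem_Wat {c : Code} {s x : ℕ} : x ∈ Wat c s ↔ wb c s x = true := Iff.rfl

lemma wb_iff {c : Code} {s x : ℕ} : wb c s x = true ↔ ∃ y, y ∈ Code.evaln s c x := by
  simp only [wb, Option.isSome_iff_exists, Option.mem_def]

lemma wb_mono {c : Code} {s t x : ℕ} (h : s ≤ t) (hs : wb c s x = true) : wb c t x = true := by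
  obtain ⟨y, hy⟩ := wb_iff.1 hs
  exact wb_iff.2 ⟨y, Code.evaln_mono h hy⟩

lemma wb_zero {c : Code} {x : ℕ} : wb c 0 x = false := by
  simp [wb, Code.evaln]

lemma wb_lt {c : Code} {s x : ℕ} (hs : wb c s x = true) : x < s := by
  obtain ⟨y, hy⟩ := wb_iff.1 hs
  exact Code.evaln_bound hy

lemma mem_W {c : Code} {x : ℕ} : x ∈ W c ↔ ∃ s, wb c s x = true := by
  constructor
  · intro h
    obtain ⟨y, hy⟩ := Part.dom_iff_mem.1 h
    obtain ⟨k, hk⟩ := Code.evaln_complete.1 hy
    exact ⟨k, wb_iff.2 ⟨y, hk⟩⟩
  · rintro ⟨s, hs⟩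
    obtain ⟨y, hy⟩ := wb_iff.1 hs
    exact Part.dom_iff_mem.2 ⟨y, Code.evaln_sound hy⟩

lemma primrec_wb : Primrec (fun t : (ℕ × Code) × ℕ => wb t.1.2 t.1.1 t.2) :=
  Primrec.option_isSome.comp Code.primrec_evaln

/-- membership in the stage `s` approximation of a presentation -/
def inb (s x : ℕ) : List Code → Bool
  | [] => false
  | [c] => wb c s x
  | c :: d :: L => (wb c s x && !wb d s x) || inb s x L

lemma mem_presentedAt {s x : ℕ} : ∀ {P : List Code}, x ∈ presentedAt P s ↔ inb s x P = true
  | [] => by simp [presentedAt, comb, inb]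
  | [c] => by simp [presentedAt, comb, inb, mem_Wat]
  | c :: d :: L => by
      have ih := mem_presentedAt (s := s) (x := x) (P := L)
      simp only [presentedAt] at ih
      simp [presentedAt, comb, inb, mem_Wat, ih]

/-- the first entry of a list, as a bit -/
def hb (s x : ℕ) : List Code → Bool
  | [] => false
  | c :: _ => wb c s x

lemma inb_cons (s x : ℕ) (c : Code) (L : List Code) :
    inb s x (c :: L) = ((wb c s x && !hb s x L) || inb s x L.tail) := by
  cases L with
  | nil => simp [inb, hb]
  | cons d L => simp [inb, hb]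

lemma foldr_eq (s x : ℕ) (P : List Code) :
    P.foldr (fun c (st : Bool × Bool × Bool) =>
      (((wb c s x && !st.2.2) || st.2.1), st.1, wb c s x)) (false, false, false)
      = (inb s x P, inb s x P.tail, hb s x P) := by
  induction P with
  | nil => simp [inb, hb]
  | cons c L ih =>
      rw [List.foldr_cons, ih]
      simp [inb_cons, hb]

lemma primrec_inb : Primrec (fun t : (ℕ × ℕ) × List Code => inb t.1.1 t.1.2 t.2) := by
  have hstep : Primrec₂ (fun (t : (ℕ × ℕ) × List Code) (b : Code × (Bool × Bool × Bool)) =>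
      ((((wb b.1 t.1.1 t.1.2 && !b.2.2.2) || b.2.2.1), b.2.1, wb b.1 t.1.1 t.1.2)
        : Bool × Bool × Bool)) := by
    have hw : Primrec (fun q : ((ℕ × ℕ) × List Code) × (Code × (Bool × Bool × Bool)) =>
        wb q.2.1 q.1.1.1 q.1.1.2) :=
      primrec_wb.comp (((Primrec.fst.comp (Primrec.fst.comp Primrec.fst)).pair
        (Primrec.fst.comp Primrec.snd)).pair (Primrec.snd.comp (Primrec.fst.comp Primrec.fst)))
    have hB : Primrec (fun q : ((ℕ × ℕ) × List Code) × (Code × (Bool × Bool × Bool)) =>
        q.2.2) := Primrec.snd.comp Primrec.snd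
    exact (Primrec.or.comp (Primrec.and.comp hw (Primrec.not.comp
      (Primrec.snd.comp (Primrec.snd.comp hB)))) (Primrec.fst.comp (Primrec.snd.comp hB))).pair
      ((Primrec.fst.comp hB).pair hw)
  have h := Primrec.list_foldr (f := fun t : (ℕ × ℕ) × List Code => t.2)
    (g := fun _ => ((false, false, false) : Bool × Bool × Bool)) Primrec.snd
    (Primrec.const _) hstep
  refine (Primrec.fst.comp h).of_eq fun t => ?_
  have := foldr_eq t.1.1 t.1.2 t.2
  simp only at this ⊢
  rw [this]

/-- the number of times `x` has entered the presented set by stage `s` -/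
def rr (P : List Code) (x : ℕ) : ℕ → ℕ
  | 0 => 0
  | s + 1 => rr P x s + (!inb s x P && inb (s + 1) x P).toNat

lemma primrec_toNat : Primrec Bool.toNat := by
  refine (Primrec.cond Primrec.id (Primrec.const 1) (Primrec.const 0)).of_eq ?_
  intro b; cases b <;> rfl

lemma primrec_rr : Primrec (fun t : (List Code × ℕ) × ℕ => rr t.1.1 t.1.2 t.2) := by
  have hh : Primrec₂ (fun (t : (List Code × ℕ) × ℕ) (b : ℕ × ℕ) =>
      b.2 + (!inb b.1 t.1.2 t.1.1 && inb (b.1 + 1) t.1.2 t.1.1).toNat) := by
    have hb1 : Primrec (fun q : ((List Code × ℕ) × ℕ) × (ℕ × ℕ) => q.2.1) :=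
      Primrec.fst.comp Primrec.snd
    have hx : Primrec (fun q : ((List Code × ℕ) × ℕ) × (ℕ × ℕ) => q.1.1.2) :=
      Primrec.snd.comp (Primrec.fst.comp Primrec.fst)
    have hP : Primrec (fun q : ((List Code × ℕ) × ℕ) × (ℕ × ℕ) => q.1.1.1) :=
      Primrec.fst.comp (Primrec.fst.comp Primrec.fst)
    exact Primrec.nat_add.comp (Primrec.snd.comp Primrec.snd)
      (primrec_toNat.comp (Primrec.and.comp
        (Primrec.not.comp (primrec_inb.comp ((hb1.pair hx).pair hP)))
        (primrec_inb.comp (((Primrec.succ.comp hb1).pair hx).pair hP))))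
  have h := Primrec.nat_rec' (f := fun t : (List Code × ℕ) × ℕ => t.2) (g := fun _ => 0)
    Primrec.snd (Primrec.const 0) hh
  refine h.of_eq fun t => ?_
  obtain ⟨⟨P, x⟩, s⟩ := t
  simp only
  induction s with
  | zero => rfl
  | succ s ih => simp only [rr, ← ih]

lemma rr_succ_le (P : List Code) (x s : ℕ) : rr P x s ≤ rr P x (s + 1) := by
  simp [rr]

lemma rr_mono (P : List Code) (x : ℕ) : Monotone (rr P x) :=
  monotone_nat_of_le_succ (rr_succ_le P x)

lemma countP_le_of {α : Type*} {p q : α → Bool} {L : List α}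
    (h : ∀ c ∈ L, p c = true → q c = true) : L.countP p ≤ L.countP q := by
  induction L with
  | nil => simp
  | cons a L ih =>
      have ih' := ih fun c hc => h c (List.mem_cons_of_mem _ hc)
      have ha := h a List.mem_cons_self
      rw [List.countP_cons, List.countP_cons]
      by_cases hp : p a = true
      · simp [hp, ha hp, ih']
      · by_cases hq : q a = true
        · simp [hp, hq]; omega
        · simp [hp, hq, ih']

lemma countP_lt_of {α : Type*} {p q : α → Bool} {L : List α}
    (h : ∀ c ∈ L, p c = true → q c = true) {c : α} (hc : c ∈ L) (hpc : p c = false)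
    (hqc : q c = true) : L.countP p < L.countP q := by
  induction L with
  | nil => simp at hc
  | cons a L ih =>
      rw [List.countP_cons, List.countP_cons]
      have hL : ∀ c ∈ L, p c = true → q c = true := fun c hc => h c (List.mem_cons_of_mem _ hc)
      have hle := countP_le_of hL
      have ha := h a List.mem_cons_self
      rcases List.mem_cons.1 hc with rfl | hc'
      · simp [hpc, hqc]; omega
      · have := ih hL hc'
        by_cases hp : p a = true
        · simp [hp, ha hp]; omega
        · by_cases hq : q a = true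
          · simp [hp, hq]; omega
          · simp [hp, hq]; omega

lemma inb_congr {s t x : ℕ} : ∀ {P : List Code}, (∀ c ∈ P, wb c s x = wb c t x) →
    inb s x P = inb t x P
  | [], _ => rfl
  | [c], h => by simp [inb, h c (by simp)]
  | c :: d :: L, h => by
      have ih := inb_congr (s := s) (t := t) (x := x) (P := L) fun e he => h e (by simp [he])
      simp [inb, ih, h c (by simp), h d (by simp)]

lemma rr_le_count (P : List Code) (x s : ℕ) : rr P x s ≤ P.countP (fun c => wb c s x) := by
  induction s with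
  | zero => simp [rr]
  | succ s ih =>
      have hmono : ∀ c ∈ P, wb c s x = true → wb c (s + 1) x = true :=
        fun c _ h => wb_mono (Nat.le_succ s) h
      by_cases hE : (!inb s x P && inb (s + 1) x P) = true
      · have hne : ∃ c ∈ P, wb c s x ≠ wb c (s + 1) x := by
          by_contra hcon
          push Not at hcon
          have := inb_congr hcon
          rw [this] at hE
          simp at hE
        obtain ⟨c, hc, hne⟩ := hne
        have h1 : wb c s x = false := by
          by_contra h
          have h' : wb c s x = true := by simpa using h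
          exact hne (by rw [h', hmono c hc h'])
        have h2 : wb c (s + 1) x = true := by
          by_contra h
          have h' : wb c (s + 1) x = false := by simpa using h
          exact hne (by rw [h1, h'])
        have := countP_lt_of hmono hc h1 h2
        simp only [rr, hE, Bool.toNat_true]
        omega
      · have hE' : (!inb s x P && inb (s + 1) x P) = false := by simpa using hE
        have := countP_le_of hmono
        simp only [rr, hE', Bool.toNat_false]
        omega

lemma rr_le_length (P : List Code) (x s : ℕ) : rr P x s ≤ P.length :=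
  (rr_le_count P x s).trans List.countP_le_length

/-- the `e`-th presentation -/
def pres (e : ℕ) : List Code := ofNat (List Code) e

lemma pres_encode (P : List Code) : pres (encode P) = P := ofNat_encode P

lemma length_pres (e : ℕ) : (pres e).length ≤ e := by
  have := length_le_encode (pres e)
  rwa [pres, encode_ofNat] at this

lemma rr_pres_le (e x s : ℕ) : rr (pres e) x s ≤ e := (rr_le_length _ _ _).trans (length_pres e)

lemma primrec_pres : Primrec pres := Primrec.ofNat _

/-- the vector `(rr (pres e) x s)_{e < k}`, written in base `x + 1` -/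
def Jc (x s : ℕ) : ℕ → ℕ
  | 0 => 0
  | k + 1 => Jc x s k + rr (pres k) x s * (x + 1) ^ k

/-- the location used when `x` enters at stage `s` -/
def loc (x s : ℕ) : ℕ := Jc x s x

lemma Jc_lt (x s k : ℕ) (hk : k ≤ x) : Jc x s k < (x + 1) ^ k := by
  induction k with
  | zero => simp [Jc]
  | succ k ih =>
      have h1 := ih (by omega)
      have h2 : rr (pres k) x s ≤ x := (rr_pres_le k x s).trans (by omega)
      have h3 : rr (pres k) x s * (x + 1) ^ k ≤ x * (x + 1) ^ k := Nat.mul_le_mul_right _ h2
      rw [Jc, pow_succ]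
      nlinarith

lemma Jc_decomp (x s e : ℕ) : ∀ k, e < k → ∃ q,
    Jc x s k = Jc x s e + rr (pres e) x s * (x + 1) ^ e + (x + 1) ^ (e + 1) * q := by
  intro k hk
  induction k with
  | zero => omega
  | succ k ih =>
      rcases Nat.lt_succ_iff_lt_or_eq.1 hk with h | h
      · obtain ⟨q, hq⟩ := ih h
        refine ⟨q + rr (pres k) x s * (x + 1) ^ (k - (e + 1)), ?_⟩
        have hk' : (x + 1) ^ k = (x + 1) ^ (e + 1) * (x + 1) ^ (k - (e + 1)) := by
          rw [← pow_add]; congr 1; omega
        rw [Jc, hq, hk']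
        ring
      · subst h
        exact ⟨0, by rw [Jc]; ring⟩

/-- the `e`-th component of the code `c` at `x` -/
def comp (e x c : ℕ) : ℕ := c / (x + 1) ^ e % (x + 1)

lemma comp_loc {e x : ℕ} (s : ℕ) (h : e < x) : comp e x (loc x s) = rr (pres e) x s := by
  obtain ⟨q, hq⟩ := Jc_decomp x s e x h
  have h1 := Jc_lt x s e h.le
  have h2 : rr (pres e) x s < x + 1 := by
    have := rr_pres_le e x s; omega
  have hpos : 0 < (x + 1) ^ e := by positivity
  have : loc x s / (x + 1) ^ e = rr (pres e) x s + (x + 1) * q := by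
    rw [loc, hq, show Jc x s e + rr (pres e) x s * (x + 1) ^ e + (x + 1) ^ (e + 1) * q
      = Jc x s e + (x + 1) ^ e * (rr (pres e) x s + (x + 1) * q) by ring,
      Nat.add_mul_div_left _ _ hpos, Nat.div_eq_of_lt h1, zero_add]
  rw [comp, this, Nat.add_mul_mod_self_left, Nat.mod_eq_of_lt h2]

lemma loc_lt (x s : ℕ) : loc x s < (x + 1) ^ x := Jc_lt x s x le_rfl

lemma primrec_pow : Primrec₂ (fun a b : ℕ => a ^ b) :=
  (Primrec₂.unpaired'.1 Nat.Primrec.pow)

lemma primrec_Jc : Primrec (fun t : (ℕ × ℕ) × ℕ => Jc t.1.1 t.1.2 t.2) := by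
  have hh : Primrec₂ (fun (t : (ℕ × ℕ) × ℕ) (b : ℕ × ℕ) =>
      b.2 + rr (pres b.1) t.1.1 t.1.2 * (t.1.1 + 1) ^ b.1) := by
    have hk : Primrec (fun q : ((ℕ × ℕ) × ℕ) × (ℕ × ℕ) => q.2.1) :=
      Primrec.fst.comp Primrec.snd
    have hx : Primrec (fun q : ((ℕ × ℕ) × ℕ) × (ℕ × ℕ) => q.1.1.1) :=
      Primrec.fst.comp (Primrec.fst.comp Primrec.fst)
    have hs : Primrec (fun q : ((ℕ × ℕ) × ℕ) × (ℕ × ℕ) => q.1.1.2) :=
      Primrec.snd.comp (Primrec.fst.comp Primrec.fst)
    exact Primrec.nat_add.comp (Primrec.snd.comp Primrec.snd)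
      (Primrec.nat_mul.comp (primrec_rr.comp (((primrec_pres.comp hk).pair hx).pair hs))
        (primrec_pow.comp (Primrec.succ.comp hx) hk))
  have h := Primrec.nat_rec' (f := fun t : (ℕ × ℕ) × ℕ => t.2) (g := fun _ => 0)
    Primrec.snd (Primrec.const 0) hh
  refine h.of_eq fun t => ?_
  obtain ⟨⟨x, s⟩, k⟩ := t
  simp only
  induction k with
  | zero => rfl
  | succ k ih => simp only [Jc, ← ih]

lemma primrec_loc : Primrec₂ loc :=
  primrec_Jc.comp ((Primrec.fst.pair Primrec.snd).pair Primrec.fst)

lemma primrec_comp : Primrec (fun t : (ℕ × ℕ) × ℕ => comp t.1.1 t.1.2 t.2) :=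
  Primrec.nat_mod.comp (Primrec.nat_div.comp Primrec.snd
    (primrec_pow.comp (Primrec.succ.comp (Primrec.snd.comp Primrec.fst))
      (Primrec.fst.comp Primrec.fst))) (Primrec.succ.comp (Primrec.snd.comp Primrec.fst))

end Tardy
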