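import Pool.Agent.Lib.MP_d46290_lc.Basic

open Nat.Partrec (Code)
open Encodable Denumerable

namespace Tardy

/-! ### limits and counters -/

lemma wb_limit (x : ℕ) (P : List Code) :
    ∃ s₀, ∀ s ≥ s₀, ∀ c ∈ P, (wb c s x = true ↔ x ∈ W c) := by
  induction P with
  | nil => exact ⟨0, by simp⟩
  | cons c L ih =>
      obtain ⟨s₀, h₀⟩ := ih
      by_cases hc : x ∈ W c
      · obtain ⟨s₁, h₁⟩ := mem_W.1 hc
        refine ⟨max s₀ s₁, fun s hs d hd => ?_⟩
        rcases List.mem_cons.1 hd with rfl | hd
        · exact ⟨fun _ => hc, fun _ => wb_mono ((le_max_right _ _).trans hs) h₁⟩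
        · exact h₀ s ((le_max_left _ _).trans hs) d hd
      · refine ⟨s₀, fun s hs d hd => ?_⟩
        rcases List.mem_cons.1 hd with rfl | hd
        · exact ⟨fun h => mem_W.2 ⟨s, h⟩, fun h => absurd h hc⟩
        · exact h₀ s hs d hd

lemma inb_eq_of {s x : ℕ} : ∀ {P : List Code}, (∀ c ∈ P, (wb c s x = true ↔ x ∈ W c)) →
    (inb s x P = true ↔ x ∈ presented P)
  | [], _ => by simp [inb, presented, comb]
  | [c], h => by simp [inb, presented, comb, h c (by simp)]
  | c :: d :: L, h => by
      have ih := inb_eq_of (s := s) (x := x) (P := L) fun e he => h e (by simp [he])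
      have h1 := h c (by simp)
      have h2 := h d (by simp)
      simp only [presented] at ih
      simp only [inb, presented, comb, List.map_cons, Bool.or_eq_true, Bool.and_eq_true,
        Bool.not_eq_true', ih, h1, Set.mem_union, Set.mem_sdiff, ← h2, Bool.not_eq_true]

lemma inb_limit (x : ℕ) (P : List Code) :
    ∃ s₀, ∀ s ≥ s₀, (inb s x P = true ↔ x ∈ presented P) := by
  obtain ⟨s₀, h⟩ := wb_limit x P
  exact ⟨s₀, fun s hs => inb_eq_of (h s hs)⟩

lemma inb_zero (x : ℕ) : ∀ P : List Code, inb 0 x P = false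
  | [] => rfl
  | [c] => by simp [inb, wb_zero]
  | c :: d :: L => by simp [inb, wb_zero, inb_zero x L]

lemma inb_lt {s x : ℕ} : ∀ {P : List Code}, inb s x P = true → x < s
  | [], h => by simp [inb] at h
  | [c], h => by simp only [inb] at h; exact wb_lt h
  | c :: d :: L, h => by
      simp only [inb, Bool.or_eq_true, Bool.and_eq_true] at h
      rcases h with h | h
      · exact wb_lt h.1
      · exact inb_lt h

lemma rr_lt_stage {P : List Code} {x : ℕ} : ∀ {v : ℕ}, 1 ≤ rr P x v → x < v
  | 0, h => by simp [rr] at h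
  | v + 1, h => by
      by_cases h1 : 1 ≤ rr P x v
      · have := rr_lt_stage h1; omega
      · by_cases h2 : inb (v + 1) x P = true
        · exact inb_lt h2
        · have h2' : inb (v + 1) x P = false := by simpa using h2
          simp only [rr, h2', Bool.and_false, Bool.toNat_false] at h
          omega

lemma rr_lt {P : List Code} {x v : ℕ} (hv : inb v x P = false) :
    ∀ {w : ℕ}, v < w → inb w x P = true → rr P x v < rr P x w := by
  intro w
  induction w with
  | zero => intro h; omega
  | succ w ih =>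
      intro hvw hw
      by_cases h : inb w x P = true
      · rcases Nat.lt_succ_iff_lt_or_eq.1 hvw with h' | h'
        · exact (ih h' h).trans_le (rr_succ_le P x w)
        · subst h'; rw [hv] at h; simp at h
      · have h' : inb w x P = false := by simpa using h
        have hle : rr P x v ≤ rr P x w := rr_mono P x (Nat.lt_succ_iff.1 hvw)
        have : rr P x (w + 1) = rr P x w + 1 := by simp [rr, h', hw]
        omega

section facts

variable {a : Code} {P : List Code} {q : ℕ → ℕ}

lemma rr_const (hq : ∀ s, s ≤ q s) (hT : ∀ x s, inb s x P = true → wb a (q s) x = false)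
    {x t : ℕ} (ht : wb a t x = true) : ∀ {v : ℕ}, t ≤ v → rr P x v = rr P x t := by
  intro v hv
  induction v with
  | zero => have : t = 0 := by omega
            subst this; rfl
  | succ v ih =>
      rcases Nat.le_succ_iff.1 hv with h | h
      · have h1 : inb (v + 1) x P = false := by
          by_contra hcon
          have hcon' : inb (v + 1) x P = true := by simpa using hcon
          have h2 := hT x (v + 1) hcon'
          rw [wb_mono (hv.trans (hq _)) ht] at h2
          simp at h2
        simp [rr, h1, ih h]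
      · have h' : v + 1 = t := h.symm
        rw [h']

end facts

/-! ### the set `B` -/

/-- the stage `t` approximation of `B` -/
def Fst (a : Code) (t L : ℕ) : Prop :=
  ∃ s < t, wb a s L.unpair.1 = false ∧ wb a (s + 1) L.unpair.1 = true ∧
    L.unpair.2 = loc L.unpair.1 (s + 1)

/-- the set `B` -/
def Bset (a : Code) : Set ℕ := {L | ∃ t, Fst a t L}

lemma Fst_mono {a : Code} {s t L : ℕ} (h : s ≤ t) (hs : Fst a s L) : Fst a t L := by
  obtain ⟨u, hu, h'⟩ := hs
  exact ⟨u, hu.trans_le h, h'⟩

lemma exists_entry {a : Code} {t x : ℕ} (h : wb a t x = true) :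
    ∃ s < t, wb a s x = false ∧ wb a (s + 1) x = true := by
  classical
  have hex : ∃ t, wb a t x = true := ⟨t, h⟩
  have h0 : Nat.find hex ≠ 0 := by
    intro h0
    have := Nat.find_spec hex
    rw [h0, wb_zero] at this
    simp at this
  obtain ⟨s, hs⟩ := Nat.exists_eq_succ_of_ne_zero h0
  have hle : Nat.find hex ≤ t := Nat.find_min' hex h
  refine ⟨s, by omega, ?_, ?_⟩
  · have := Nat.find_min hex (m := s) (by omega)
    simpa using this
  · have := Nat.find_spec hex
    rwa [hs] at this

lemma Fst_of {a : Code} {t L : ℕ} (h : wb a t L.unpair.1 = true) :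
    L ∈ Bset a ↔ Fst a t L := by
  constructor
  · rintro ⟨t', s, -, h1, h2, h3⟩
    refine ⟨s, ?_, h1, h2, h3⟩
    by_contra hcon
    rw [wb_mono (not_lt.1 hcon) h] at h1
    simp at h1
  · intro h'
    exact ⟨t, h'⟩

lemma fst_mem_of_Bset {a : Code} {L : ℕ} (h : L ∈ Bset a) : L.unpair.1 ∈ W a := by
  obtain ⟨t, s, -, -, h2, -⟩ := h
  exact mem_W.2 ⟨_, h2⟩

/-! ### codes -/

lemma exists_code_comp (R : ℕ → ℕ → Prop) (hR : ComputablePred fun q : ℕ × ℕ => R q.1 q.2) :
    ∃ c : Code, ∀ L, L ∈ W c ↔ ∃ t, R t L := by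
  classical
  have h1 : Computable (fun q : ℕ × ℕ => decide (R q.1 q.2)) := hR.decide
  have h2 : Partrec₂ (fun (L t : ℕ) => (Part.some (decide (R t L)) : Part Bool)) :=
    (h1.comp (Computable.snd.pair Computable.fst)).partrec
  have h3 : Partrec (fun L : ℕ => Nat.rfind fun t => (Part.some (decide (R t L)) : Part Bool)) :=
    Partrec.rfind h2
  obtain ⟨c, hc⟩ := Code.exists_code.1 (Partrec.nat_iff.1 h3)
  refine ⟨c, fun L => ?_⟩
  have h4 : L ∈ W c ↔
      (Nat.rfind ((fun t => Part.some (decide (R t L))) : ℕ →. Bool)).Dom := by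
    have : Code.eval c L = Nat.rfind ((fun t => Part.some (decide (R t L))) : ℕ →. Bool) :=
      congrFun hc L
    exact this ▸ Iff.rfl
  refine h4.trans (Nat.rfind_dom.trans ?_)
  constructor
  · rintro ⟨t, ht, -⟩
    exact ⟨t, by simpa using ht⟩
  · rintro ⟨t, ht⟩
    exact ⟨t, by simpa using ht, fun _ => trivial⟩

lemma exists_code (R : ℕ → ℕ → Prop) (hR : PrimrecPred fun q : ℕ × ℕ => R q.1 q.2) :
    ∃ c : Code, ∀ L, L ∈ W c ↔ ∃ t, R t L :=
  exists_code_comp R hR.computablePred

lemma exists_code₂ (R : ℕ → ℕ → ℕ → Prop)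
    (hR : PrimrecPred fun q : (ℕ × ℕ) × ℕ => R q.1.1 q.1.2 q.2) :
    ∃ c : Code, ∀ e L, L ∈ W (Code.curry c e) ↔ ∃ t, R e t L := by
  obtain ⟨c, hc⟩ := exists_code (fun t y => R y.unpair.1 t y.unpair.2)
    (hR.comp (((Primrec.fst.comp (Primrec.unpair.comp Primrec.snd)).pair Primrec.fst).pair
      (Primrec.snd.comp (Primrec.unpair.comp Primrec.snd))))
  refine ⟨c, fun e L => ?_⟩
  have h1 : L ∈ W (Code.curry c e) ↔ Nat.pair e L ∈ W c := by
    show (Code.eval (Code.curry c e) L).Dom ↔ (Code.eval c (Nat.pair e L)).Dom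
    rw [Code.eval_curry]
  rw [h1, hc]
  simp

/-! ### primitive recursiveness of the relations -/

lemma primrec_wbp (a : Code) : Primrec₂ (fun s x : ℕ => wb a s x) :=
  primrec_wb.comp ((Primrec.fst.pair (Primrec.const a)).pair Primrec.snd)

lemma primrec_eqTrue {α : Type*} [Primcodable α] {f : α → Bool} (hf : Primrec f) :
    PrimrecPred fun x => f x = true :=
  Primrec.eq.comp hf (Primrec.const true)

lemma primrec_eqFalse {α : Type*} [Primcodable α] {f : α → Bool} (hf : Primrec f) :
    PrimrecPred fun x => f x = false :=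
  Primrec.eq.comp hf (Primrec.const false)

lemma primrec_Fst (a : Code) : PrimrecRel (Fst a) := by
  have hx : Primrec (fun q : ℕ × ℕ => q.2.unpair.1) :=
    Primrec.fst.comp (Primrec.unpair.comp Primrec.snd)
  have hc : Primrec (fun q : ℕ × ℕ => q.2.unpair.2) :=
    Primrec.snd.comp (Primrec.unpair.comp Primrec.snd)
  have hR : PrimrecRel (fun s L : ℕ => wb a s L.unpair.1 = false ∧
      wb a (s + 1) L.unpair.1 = true ∧ L.unpair.2 = loc L.unpair.1 (s + 1)) := by
    refine PrimrecPred.and ?_ (PrimrecPred.and ?_ ?_)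
    · exact primrec_eqFalse ((primrec_wbp a).comp Primrec.fst hx)
    · exact primrec_eqTrue ((primrec_wbp a).comp (Primrec.succ.comp Primrec.fst) hx)
    · exact Primrec.eq.comp hc (primrec_loc.comp hx (Primrec.succ.comp Primrec.fst))
  exact hR.exists_lt

/-- the relation defining `X₂` -/
def V2 (e u L : ℕ) : Prop :=
  1 ≤ comp e L.unpair.1 L.unpair.2 ∧
    ∃ v ∈ List.range (u + 1), rr (pres e) L.unpair.1 v = comp e L.unpair.1 L.unpair.2 ∧
      inb v L.unpair.1 (pres e) = false

lemma primrec_V2 : PrimrecPred fun q : (ℕ × ℕ) × ℕ => V2 q.1.1 q.1.2 q.2 := by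
  have hcomp : Primrec (fun q : (ℕ × ℕ) × ℕ => comp q.1.1 q.2.unpair.1 q.2.unpair.2) :=
    primrec_comp.comp (((Primrec.fst.comp Primrec.fst).pair
      (Primrec.fst.comp (Primrec.unpair.comp Primrec.snd))).pair
      (Primrec.snd.comp (Primrec.unpair.comp Primrec.snd)))
  have hR : PrimrecRel (fun (v : ℕ) (q : (ℕ × ℕ) × ℕ) =>
      rr (pres q.1.1) q.2.unpair.1 v = comp q.1.1 q.2.unpair.1 q.2.unpair.2 ∧
      inb v q.2.unpair.1 (pres q.1.1) = false) := by
    have he : Primrec (fun r : ℕ × ((ℕ × ℕ) × ℕ) => pres r.2.1.1) :=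
      primrec_pres.comp (Primrec.fst.comp (Primrec.fst.comp Primrec.snd))
    have hx : Primrec (fun r : ℕ × ((ℕ × ℕ) × ℕ) => r.2.2.unpair.1) :=
      Primrec.fst.comp (Primrec.unpair.comp (Primrec.snd.comp Primrec.snd))
    refine PrimrecPred.and ?_ ?_
    · exact Primrec.eq.comp (primrec_rr.comp ((he.pair hx).pair Primrec.fst))
        (hcomp.comp Primrec.snd)
    · exact primrec_eqFalse (primrec_inb.comp ((Primrec.fst.pair hx).pair he))
  refine PrimrecPred.and ?_ ?_
  · exact Primrec.nat_le.comp (Primrec.const 1) hcomp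
  · exact hR.exists_mem_list.comp (Primrec.list_range.comp
      (Primrec.succ.comp (Primrec.snd.comp Primrec.fst))) Primrec.id

lemma V2_iff {e u L : ℕ} : V2 e u L ↔ 1 ≤ comp e L.unpair.1 L.unpair.2 ∧
    ∃ v ≤ u, rr (pres e) L.unpair.1 v = comp e L.unpair.1 L.unpair.2 ∧
      inb v L.unpair.1 (pres e) = false := by
  simp [V2, List.mem_range]

/-! ### domination -/

lemma dominate (h : ℕ × ℕ → ℕ) (hh : Computable h) : ∃ q : ℕ → ℕ, Computable q ∧ Monotone q ∧
    (∀ s, s ≤ q s) ∧ ∀ e u, e ≤ u → h (e, u) ≤ q u := by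
  set G : ℕ → ℕ := fun k => Nat.rec (h (Nat.unpair 0))
    (fun k ih => max ih (h (Nat.unpair (k + 1)))) k with hG
  have hGc : Computable G := by
    have h1 : Computable₂ (fun (_ : ℕ) (b : ℕ × ℕ) => max b.2 (h (Nat.unpair (b.1 + 1)))) := by
      have : Computable (fun r : ℕ × (ℕ × ℕ) => h (Nat.unpair (r.2.1 + 1))) :=
        hh.comp (Computable.unpair.comp (Computable.succ.comp
          (Computable.fst.comp Computable.snd)))
      exact Primrec.nat_max.to_comp.comp (Computable.snd.comp Computable.snd) this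
    exact Computable.nat_rec Computable.id (Computable.const _) h1
  have hGm : Monotone G := by
    refine monotone_nat_of_le_succ fun k => ?_
    exact le_max_left _ _
  have hGh : ∀ k, h (Nat.unpair k) ≤ G k := by
    intro k
    cases k with
    | zero => exact le_rfl
    | succ k => exact le_max_right _ _
  have hpm : ∀ u v : ℕ, u ≤ v → Nat.pair u u ≤ Nat.pair v v := by
    intro u v huv
    rcases huv.eq_or_lt with rfl | h
    · exact le_rfl
    · exact ((Nat.pair_lt_pair_left _ h).trans (Nat.pair_lt_pair_right _ h)).le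
  refine ⟨fun u => max u (G (Nat.pair u u)), ?_, ?_, ?_, ?_⟩
  · exact Primrec.nat_max.to_comp.comp Computable.id (hGc.comp
      (Primrec₂.natPair.to_comp.comp Computable.id Computable.id))
  · intro u v huv
    exact max_le_max huv (hGm (hpm u v huv))
  · intro s; exact le_max_left _ _
  · intro e u heu
    have h1 : h (e, u) ≤ G (Nat.pair e u) := by
      have := hGh (Nat.pair e u)
      simpa using this
    refine (h1.trans (hGm ?_)).trans (le_max_right _ _)
    rcases heu.eq_or_lt with rfl | h
    · exact le_rfl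
    · exact (Nat.pair_lt_pair_left _ h).le

/-- bound for the elements concerned at stage `u` -/
def bd (u : ℕ) : ℕ := Nat.pair u ((u + 1) ^ u)

lemma exists_delay (c : Code) (hc : ∀ e L, L ∈ W (Code.curry c e) ↔ ∃ t, V2 e t L) :
    ∃ f : ℕ × ℕ → ℕ, Computable f ∧
      ∀ e u L, L < bd u → V2 e u L → wb (Code.curry c e) (f (e, u)) L = true := by
  classical
  have hbd : Primrec bd := Primrec₂.natPair.comp Primrec.id
    (primrec_pow.comp Primrec.succ Primrec.id)
  have hR : PrimrecRel (fun (L : ℕ) (q : (ℕ × ℕ) × ℕ) =>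
      ¬ V2 q.1.1 q.1.2 L ∨ wb (Code.curry c q.1.1) q.2 L = true) := by
    refine PrimrecPred.or (PrimrecPred.not ?_) ?_
    · exact primrec_V2.comp ((Primrec.fst.comp Primrec.snd).pair Primrec.fst)
    · refine primrec_eqTrue (primrec_wb.comp (((Primrec.snd.comp Primrec.snd).pair
        (Code.primrec₂_curry.comp (Primrec.const c)
          (Primrec.fst.comp (Primrec.fst.comp Primrec.snd)))).pair Primrec.fst))
  have hP : PrimrecPred (fun q : (ℕ × ℕ) × ℕ =>
      ∀ L ∈ List.range (bd q.1.2), ¬ V2 q.1.1 q.1.2 L ∨ wb (Code.curry c q.1.1) q.2 L = true) :=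
    hR.forall_mem_list.comp (Primrec.list_range.comp (hbd.comp
      (Primrec.snd.comp Primrec.fst))) Primrec.id
  have hex : ∀ eu : ℕ × ℕ, ∃ t, ∀ L ∈ List.range (bd eu.2),
      ¬ V2 eu.1 eu.2 L ∨ wb (Code.curry c eu.1) t L = true := by
    rintro ⟨e, u⟩
    simp only [List.mem_range]
    generalize bd u = n
    induction n with
    | zero => exact ⟨0, by simp⟩
    | succ n ih =>
        obtain ⟨t, ht⟩ := ih
        by_cases hV : V2 e u n
        · obtain ⟨t', ht'⟩ := mem_W.1 ((hc e n).2 ⟨u, hV⟩)
          refine ⟨max t t', fun L hL => ?_⟩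
          rcases Nat.lt_succ_iff_lt_or_eq.1 hL with h | h
          · rcases ht L h with h' | h'
            · exact Or.inl h'
            · exact Or.inr (wb_mono (le_max_left _ _) h')
          · subst h
            exact Or.inr (wb_mono (le_max_right _ _) ht')
        · refine ⟨t, fun L hL => ?_⟩
          rcases Nat.lt_succ_iff_lt_or_eq.1 hL with h | h
          · exact ht L h
          · subst h; exact Or.inl hV
  refine ⟨fun eu => Nat.find (hex eu), ?_, ?_⟩
  · exact Computable.find (P := fun (eu : ℕ × ℕ) t => ∀ L ∈ List.range (bd eu.2),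
      ¬ V2 eu.1 eu.2 L ∨ wb (Code.curry c eu.1) t L = true) hP.computablePred hex
  · intro e u L hL hV
    rcases Nat.find_spec (hex (e, u)) L (List.mem_range.2 hL) with h | h
    · exact absurd hV h
    · exact h

end Tardy
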