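import Pool.Agent.Lib.MP_d46290_lc.Main

open Nat.Partrec (Code)
open Encodable Denumerable

namespace Tardy

/-! ### enumerations -/

lemma enum_mono {E : ℕ → List ℕ} {A : Set ℕ} (hE : Enumerates E A) {s t x : ℕ} (h : s ≤ t)
    (hx : x ∈ E s) : x ∈ E t := by
  induction h with
  | refl => exact hx
  | step _ ih => exact hE.mono _ _ ih

lemma primrec_mem_list : PrimrecRel (fun (x : ℕ) (l : List ℕ) => x ∈ l) := by
  have h : PrimrecRel (fun (x : ℕ) (l : List ℕ) => ∃ y ∈ l, y = x) := by
    have := (Primrec.eq (α := ℕ)).exists_mem_list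
    exact this.comp Primrec.snd Primrec.fst
  exact h.of_eq (by simp)

lemma primrec_subset_list : PrimrecRel (fun (l m : List ℕ) => ∀ x ∈ l, x ∈ m) :=
  primrec_mem_list.forall_mem_list

/-- one enumeration is overtaken by another with a computable delay -/
lemma exists_overtake {A : Set ℕ} {E E' : ℕ → List ℕ} (hE : Enumerates E A)
    (hE' : Enumerates E' A) :
    ∃ g : ℕ → ℕ, Computable g ∧ Monotone g ∧ ∀ s x, x ∈ E s → x ∈ E' (g s) := by
  classical
  have hex : ∀ s, ∃ t, ∀ x ∈ E s, x ∈ E' t := by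
    intro s
    have hsub : ∀ x ∈ E s, x ∈ A := fun x hx => (hE.union x).2 ⟨s, hx⟩
    generalize E s = l at hsub
    induction l with
    | nil => exact ⟨0, by simp⟩
    | cons y l ih =>
        obtain ⟨t, ht⟩ := ih fun x hx => hsub x (List.mem_cons_of_mem _ hx)
        obtain ⟨t', ht'⟩ := (hE'.union y).1 (hsub y List.mem_cons_self)
        refine ⟨max t t', fun x hx => ?_⟩
        rcases List.mem_cons.1 hx with rfl | hx
        · exact enum_mono hE' (le_max_right _ _) ht'
        · exact enum_mono hE' (le_max_left _ _) (ht x hx)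
  have hP : ComputablePred (fun q : ℕ × ℕ => ∀ x ∈ E q.1, x ∈ E' q.2) := by
    have h1 : Computable (fun q : ℕ × ℕ => decide (∀ x ∈ E q.1, x ∈ E' q.2)) :=
      (primrec_subset_list.decide.to_comp.comp (hE.computable.comp Computable.fst)
        (hE'.computable.comp Computable.snd))
    exact h1.computablePred
  have hg := Computable.find (P := fun s t => ∀ x ∈ E s, x ∈ E' t) hP hex
  set g₀ : ℕ → ℕ := fun s => Nat.find (hex s) with hg₀
  obtain ⟨q, hqc, hqm, -, hq⟩ := dominate (fun eu => g₀ eu.2) (by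
    exact hg.comp Computable.snd)
  refine ⟨q, hqc, hqm, fun s x hx => ?_⟩
  exact enum_mono hE' (hq 0 s (Nat.zero_le _)) (Nat.find_spec (hex s) x hx)

lemma tardyFor_congr {A : Set ℕ} {E E' : ℕ → List ℕ} (hE : Enumerates E A)
    (hE' : Enumerates E' A) {n : ℕ} (h : TardyFor n A E') : TardyFor n A E := by
  obtain ⟨g, hgc, hgm, hg⟩ := exists_overtake hE hE'
  intro p hpm hpc
  obtain ⟨P, hP1, hP2, hP3⟩ := h (fun s => g (p s)) (hgm.comp hpm) (hgc.comp hpc)
  exact ⟨P, hP1, hP2, fun x s hx hcon => hP3 x s hx (hg _ _ hcon)⟩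

lemma promptFor_congr {A : Set ℕ} {E E' : ℕ → List ℕ} (hE : Enumerates E A)
    (hE' : Enumerates E' A) (h : PromptFor A E) : PromptFor A E' := by
  obtain ⟨g, hgc, hgm, hg⟩ := exists_overtake hE hE'
  obtain ⟨p, hpm, hpc, hp⟩ := h
  refine ⟨fun s => g (p s), hgm.comp hpm, hgc.comp hpc, fun P hne hP => ?_⟩
  obtain ⟨x, s, h1, h2⟩ := hp P hne hP
  exact ⟨x, s, h1, hg _ _ h2⟩

/-- a c.e. set given by an enumeration has an index -/
lemma exists_index {A : Set ℕ} {E : ℕ → List ℕ} (hE : Enumerates E A) : ∃ a : Code, W a = A := by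
  classical
  have h1 : Computable (fun q : ℕ × ℕ => decide (q.2 ∈ E q.1)) :=
    primrec_mem_list.decide.to_comp.comp Computable.snd (hE.computable.comp Computable.fst)
  obtain ⟨a, ha⟩ := exists_code_comp (fun s x => x ∈ E s) h1.computablePred
  refine ⟨a, ?_⟩
  ext x
  rw [ha, hE.union]

/-- the standard enumeration of the c.e. set with index `a` -/
def Estd (a : Code) (s : ℕ) : List ℕ := (List.range s).filter fun x => wb a s x

lemma mem_Estd {a : Code} {s x : ℕ} : x ∈ Estd a s ↔ wb a s x = true := by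
  simp only [Estd, List.mem_filter, List.mem_range]
  exact ⟨fun h => h.2, fun h => ⟨wb_lt h, h⟩⟩

lemma enumerates_Estd (a : Code) : Enumerates (Estd a) (W a) := by
  classical
  refine ⟨?_, ?_, ?_⟩
  · have hR : PrimrecRel (fun x s : ℕ => wb a s x = true) :=
      primrec_eqTrue ((primrec_wbp a).comp Primrec.snd Primrec.fst)
    have h1 : Primrec (fun s => (List.range s).filter fun x => decide (wb a s x = true)) :=
      hR.listFilter.comp Primrec.list_range Primrec.id
    refine h1.to_comp.of_eq fun s => ?_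
    simp [Estd]
  · intro s x hx
    rw [mem_Estd] at hx ⊢
    exact wb_mono (Nat.le_succ s) hx
  · intro x
    rw [mem_W]
    simp [mem_Estd]

open Classical in
/-- an enumeration of `B` -/
noncomputable def EB (a : Code) (s : ℕ) : List ℕ :=
  (List.range s).filter fun L => decide (Fst a s L)

lemma mem_EB {a : Code} {s L : ℕ} : L ∈ EB a s ↔ L < s ∧ Fst a s L := by
  simp [EB]

lemma enumerates_EB (a : Code) : Enumerates (EB a) (Bset a) := by
  classical
  refine ⟨?_, ?_, ?_⟩
  · have hR : PrimrecRel (fun L s : ℕ => Fst a s L) :=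
      (primrec_Fst a).comp Primrec.snd Primrec.fst
    have h1 : Primrec (fun s => (List.range s).filter fun L => decide (Fst a s L)) :=
      hR.listFilter.comp Primrec.list_range Primrec.id
    refine h1.to_comp.of_eq fun s => ?_
    simp only [EB]
  · intro s L hL
    rw [mem_EB] at hL ⊢
    exact ⟨hL.1.trans (Nat.lt_succ_self s), Fst_mono (Nat.le_succ s) hL.2⟩
  · intro L
    constructor
    · rintro ⟨t, ht⟩
      exact ⟨max t (L + 1), mem_EB.2 ⟨(Nat.lt_succ_self L).trans_le (le_max_right _ _),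
        Fst_mono (le_max_left _ _) ht⟩⟩
    · rintro ⟨s, hs⟩
      exact ⟨s, (mem_EB.1 hs).2⟩

/-- `B` is `3`-tardy -/
theorem tardy_Bset (a : Code) (h : ¬ PromptFor (W a) (Estd a)) : IsTardy 3 (Bset a) := by
  refine ⟨EB a, enumerates_EB a, fun p hpm hpc => ?_⟩
  have H : ∀ p : ℕ → ℕ, Monotone p → Computable p → ∃ P : List Code,
      presented P = (W a)ᶜ ∧ ∀ x s, inb s x P = true → wb a (p s) x = false := by
    intro p hpm hpc
    by_contra hcon
    refine h ⟨p, hpm, hpc, fun P _ hP => ?_⟩
    by_contra hcon'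
    refine hcon ⟨P, hP, fun x s hx => ?_⟩
    by_contra hx'
    have hx'' : wb a (p s) x = true := by simpa using hx'
    exact hcon' ⟨x, s, mem_presentedAt.2 hx, mem_Estd.2 hx''⟩
  obtain ⟨P, hP1, hP2, hP3⟩ := core a H p hpm hpc
  exact ⟨P, hP1, hP2, fun L s hL hcon => hP3 L s hL (mem_EB.1 hcon).2⟩

/-! ### Turing reductions -/

open Classical in
/-- reduction by an unbounded search with one question at each step -/
lemma red_of_search {A B : Set ℕ} (R O : (ℕ × ℕ) × ℕ → Bool) (q : ℕ × ℕ → ℕ)
    (hR : Primrec R) (hO : Primrec O) (hq : Primrec q) (c : ℕ → ℕ)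
    (hc : ∀ x, R ((x, c x), if q (x, c x) ∈ B then 1 else 0) = true)
    (hmin : ∀ x, ∀ m < c x, R ((x, m), if q (x, m) ∈ B then 1 else 0) = false)
    (hout : ∀ x, (x ∈ A ↔ O ((x, c x), if q (x, c x) ∈ B then 1 else 0) = true)) :
    TuringRed A B := by
  show RecursiveIn {chi B} (chi A)
  rw [RecursiveIn.iff_nat]
  -- the oracle applied to the query
  set b : ℕ → ℕ := fun n => if q n.unpair ∈ B then 1 else 0 with hb
  have h1 : Nat.RecursiveIn {chi B} (fun n => (Part.some (b n) : Part ℕ)) := by
    have hq' : Nat.RecursiveIn {chi B} (fun n => (Part.some (q n.unpair) : Part ℕ)) :=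
      Nat.Partrec.recursiveIn (Partrec.nat_iff.1 (hq.comp Primrec.unpair).to_comp)
    have ho : Nat.RecursiveIn {chi B} (chi B) := Nat.RecursiveIn.oracle _ rfl
    refine (Nat.RecursiveIn.comp ho hq').of_eq fun n => ?_
    exact Part.bind_some _ _
  have h2 : Nat.RecursiveIn {chi B} (fun n => (Part.some (Nat.pair n (b n)) : Part ℕ)) := by
    have hid : Nat.RecursiveIn {chi B} (fun n => (Part.some n : Part ℕ)) :=
      Nat.Partrec.recursiveIn (Partrec.nat_iff.1 Computable.id)
    refine (Nat.RecursiveIn.pair hid h1).of_eq fun n => ?_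
    simp [Seq.seq]
  have h3 : Nat.RecursiveIn {chi B} (fun n =>
      (Part.some (if R (n.unpair, b n) = true then 0 else 1) : Part ℕ)) := by
    have hG : Primrec (fun n : ℕ => if R (n.unpair.1.unpair, n.unpair.2) = true then 0 else 1) :=
      Primrec.ite (primrec_eqTrue (hR.comp ((Primrec.unpair.comp (Primrec.fst.comp
        Primrec.unpair)).pair (Primrec.snd.comp Primrec.unpair)))) (Primrec.const 0)
        (Primrec.const 1)
    have hG' : Nat.RecursiveIn {chi B} (fun n => (Part.some
        (if R (n.unpair.1.unpair, n.unpair.2) = true then 0 else 1) : Part ℕ)) :=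
      Nat.Partrec.recursiveIn (Partrec.nat_iff.1 hG.to_comp)
    refine (Nat.RecursiveIn.comp hG' h2).of_eq fun n => ?_
    simp
  have h4 : Nat.RecursiveIn {chi B} (fun n => (Part.some (c n) : Part ℕ)) := by
    refine (Nat.RecursiveIn.rfind h3).of_eq fun x => ?_
    refine Part.eq_some_iff.2 ?_
    refine Nat.mem_rfind.2 ⟨?_, ?_⟩
    · simp [hb, hc x]
    · intro m hm
      have := hmin x m hm
      simp [hb, this]
  have h5 : Nat.RecursiveIn {chi B} (fun n => (Part.some (Nat.pair n (c n)) : Part ℕ)) := by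
    have hid : Nat.RecursiveIn {chi B} (fun n => (Part.some n : Part ℕ)) :=
      Nat.Partrec.recursiveIn (Partrec.nat_iff.1 Computable.id)
    refine (Nat.RecursiveIn.pair hid h4).of_eq fun n => ?_
    simp [Seq.seq]
  have h6 : Nat.RecursiveIn {chi B} (fun n =>
      (Part.some (Nat.pair (Nat.pair n (c n)) (b (Nat.pair n (c n)))) : Part ℕ)) := by
    refine (Nat.RecursiveIn.comp h2 h5).of_eq fun n => ?_
    simp
  have hG : Primrec (fun n : ℕ => if O (n.unpair.1.unpair, n.unpair.2) = true then 1 else 0) :=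
    Primrec.ite (primrec_eqTrue (hO.comp ((Primrec.unpair.comp (Primrec.fst.comp
      Primrec.unpair)).pair (Primrec.snd.comp Primrec.unpair)))) (Primrec.const 1)
      (Primrec.const 0)
  have hG' : Nat.RecursiveIn {chi B} (fun n => (Part.some
      (if O (n.unpair.1.unpair, n.unpair.2) = true then 1 else 0) : Part ℕ)) :=
    Nat.Partrec.recursiveIn (Partrec.nat_iff.1 hG.to_comp)
  refine (Nat.RecursiveIn.comp hG' h6).of_eq fun x => ?_
  have := hout x
  simp [chi, hb, this]

lemma mem_A_iff {a : Code} {x : ℕ} : x ∈ W a ↔ ∃ c < (x + 1) ^ x, Nat.pair x c ∈ Bset a := by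
  constructor
  · intro h
    obtain ⟨t, ht⟩ := mem_W.1 h
    obtain ⟨s, hs, h1, h2⟩ := exists_entry ht
    exact ⟨loc x (s + 1), loc_lt _ _, t, s, hs, by simpa using h1, by simpa using h2, by simp⟩
  · rintro ⟨c, -, h⟩
    simpa using fst_mem_of_Bset h

theorem red_A_B (a : Code) : TuringRed (W a) (Bset a) := by
  classical
  set R : (ℕ × ℕ) × ℕ → Bool := fun r => decide (r.2 = 1) || decide ((r.1.1 + 1) ^ r.1.1 ≤ r.1.2)
    with hRdef
  have hR : Primrec R := by
    refine Primrec.or.comp ?_ ?_
    · exact (Primrec.eq.comp Primrec.snd (Primrec.const 1)).decide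
    · exact (Primrec.nat_le.comp (primrec_pow.comp (Primrec.succ.comp
        (Primrec.fst.comp Primrec.fst)) (Primrec.fst.comp Primrec.fst))
        (Primrec.snd.comp Primrec.fst)).decide
  set O : (ℕ × ℕ) × ℕ → Bool := fun r => decide (r.2 = 1) with hOdef
  have hO : Primrec O := (Primrec.eq.comp Primrec.snd (Primrec.const 1)).decide
  set q : ℕ × ℕ → ℕ := fun r => Nat.pair r.1 r.2 with hqdef
  have hq : Primrec q := Primrec₂.natPair.comp Primrec.fst Primrec.snd
  have hex : ∀ x, ∃ c, R ((x, c), if q (x, c) ∈ Bset a then 1 else 0) = true := by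
    intro x
    exact ⟨(x + 1) ^ x, by simp [hRdef]⟩
  refine red_of_search R O q hR hO hq (fun x => Nat.find (hex x))
    (fun x => Nat.find_spec (hex x)) (fun x m hm => ?_) (fun x => ?_)
  · have := Nat.find_min (hex x) hm
    simpa using this
  · have hspec := Nat.find_spec (hex x)
    set c := Nat.find (hex x) with hc
    constructor
    · intro hx
      obtain ⟨c', hc', hcB⟩ := mem_A_iff.1 hx
      have hle : c ≤ c' := Nat.find_min' (hex x) (by simp [hRdef, hqdef, hcB])
      by_contra hcon
      simp only [hRdef, hOdef, Bool.or_eq_true, decide_eq_true_eq] at hspec hcon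
      rcases hspec with h | h
      · exact hcon h
      · omega
    · intro h
      simp only [hOdef, hqdef, decide_eq_true_eq] at h
      have hB : Nat.pair x c ∈ Bset a := by
        by_contra hcon
        simp [hcon] at h
      simpa using fst_mem_of_Bset hB

theorem red_B_A (a : Code) : TuringRed (Bset a) (W a) := by
  classical
  set R : (ℕ × ℕ) × ℕ → Bool := fun r => decide (r.2 = 0) || wb a r.1.2 r.1.1.unpair.1
    with hRdef
  have hR : Primrec R := by
    refine Primrec.or.comp ?_ ?_
    · exact (Primrec.eq.comp Primrec.snd (Primrec.const 0)).decide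
    · exact (primrec_wbp a).comp (Primrec.snd.comp Primrec.fst)
        (Primrec.fst.comp (Primrec.unpair.comp (Primrec.fst.comp Primrec.fst)))
  set O : (ℕ × ℕ) × ℕ → Bool := fun r => decide (Fst a r.1.2 r.1.1) with hOdef
  have hO : Primrec O :=
    ((primrec_Fst a).comp (Primrec.snd.comp Primrec.fst) (Primrec.fst.comp Primrec.fst)).decide
  set q : ℕ × ℕ → ℕ := fun r => r.1.unpair.1 with hqdef
  have hq : Primrec q := Primrec.fst.comp (Primrec.unpair.comp Primrec.fst)
  have hex : ∀ x, ∃ c, R ((x, c), if q (x, c) ∈ W a then 1 else 0) = true := by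
    intro x
    by_cases hx : x.unpair.1 ∈ W a
    · obtain ⟨t, ht⟩ := mem_W.1 hx
      exact ⟨t, by simp [hRdef, ht]⟩
    · exact ⟨0, by simp [hRdef, hqdef, hx]⟩
  refine red_of_search R O q hR hO hq (fun x => Nat.find (hex x))
    (fun x => Nat.find_spec (hex x)) (fun x m hm => ?_) (fun x => ?_)
  · have := Nat.find_min (hex x) hm
    simpa using this
  · have hspec := Nat.find_spec (hex x)
    set c := Nat.find (hex x) with hc
    constructor
    · intro hx
      have hxA := fst_mem_of_Bset hx
      have hw : wb a c x.unpair.1 = true := by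
        simpa [hRdef, hqdef, hxA] using hspec
      simp only [hOdef, decide_eq_true_eq]
      exact (Fst_of hw).1 hx
    · intro h
      simp only [hOdef, decide_eq_true_eq] at h
      exact ⟨_, h⟩

/-! ### main theorem -/

/-- every very tardy set is Turing equivalent to a 3-tardy set -/
theorem veryTardy_equiv {A : Set ℕ} (h : VeryTardy A) :
    ∃ B : Set ℕ, IsTardy 3 B ∧ TuringRed A B ∧ TuringRed B A := by
  obtain ⟨E, hE, hp⟩ := h
  obtain ⟨a, rfl⟩ := exists_index hE
  refine ⟨Bset a, tardy_Bset a fun h => hp (promptFor_congr (enumerates_Estd a) hE h),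
    red_A_B a, red_B_A a⟩

/-- `n`-tardy sets are very tardy -/
theorem IsTardy.veryTardy {n : ℕ} (hn : 1 ≤ n) {A : Set ℕ} (h : IsTardy n A) :
    VeryTardy A := by
  obtain ⟨E, hE, hT⟩ := h
  refine ⟨E, hE, ?_⟩
  rintro ⟨p, hpm, hpc, hp⟩
  obtain ⟨P, hP1, hP2, hP3⟩ := hT p hpm hpc
  have hne : P ≠ [] := by
    intro h0
    rw [h0] at hP1
    simp at hP1
    omega
  obtain ⟨x, s, h1, h2⟩ := hp P hne hP2
  exact hP3 x s h1 h2

/-- an index of the empty set -/
lemma exists_empty : ∃ c : Code, ∀ s, Wat c s = ∅ := by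
  obtain ⟨c, hc⟩ := exists_code (fun _ _ => False)
    ⟨fun _ => inferInstanceAs (Decidable False), (Primrec.const false).of_eq (by simp)⟩
  refine ⟨c, fun s => ?_⟩
  ext x
  simp only [Set.mem_empty_iff_false, iff_false]
  intro h
  have := (hc x).1 (mem_W.2 ⟨s, mem_Wat.1 h⟩)
  simp at this

lemma W_eq_empty {c : Code} (h : ∀ s, Wat c s = ∅) : W c = ∅ := by
  ext x
  simp only [Set.mem_empty_iff_false, iff_false]
  intro hx
  obtain ⟨s, hs⟩ := mem_W.1 hx
  have : x ∈ Wat c s := hs
  rw [h s] at this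
  exact this

lemma comb_replicate : ∀ k : ℕ, comb (List.replicate k (∅ : Set ℕ)) = ∅
  | 0 => rfl
  | 1 => rfl
  | k + 2 => by
      rw [List.replicate_succ, List.replicate_succ, comb, comb_replicate k]
      simp

lemma comb_cons_replicate (X : Set ℕ) (k : ℕ) :
    comb (X :: List.replicate k (∅ : Set ℕ)) = X := by
  cases k with
  | zero => rfl
  | succ k =>
      rw [List.replicate_succ, comb, comb_replicate k]
      simp

/-- `3`-tardy sets are `n`-tardy for `n ≥ 3` -/
theorem IsTardy.of_three {n : ℕ} (hn : 3 ≤ n) {A : Set ℕ} (h : IsTardy 3 A) : IsTardy n A := by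
  obtain ⟨E, hE, hT⟩ := h
  obtain ⟨c₀, hc₀⟩ := exists_empty
  refine ⟨E, hE, fun p hpm hpc => ?_⟩
  obtain ⟨P, hP1, hP2, hP3⟩ := hT p hpm hpc
  match P, hP1 with
  | [c₁, c₂, c₃], _ =>
      refine ⟨c₁ :: c₂ :: c₃ :: List.replicate (n - 3) c₀, ?_, ?_, ?_⟩
      · simp only [List.length_cons, List.length_replicate]
        omega
      · rw [← hP2]
        simp only [presented, List.map_cons, List.map_replicate, W_eq_empty hc₀, List.map_nil]
        rw [comb, comb_cons_replicate, comb, comb]
      · intro x s hx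
        refine hP3 x s ?_
        simp only [presentedAt, List.map_cons, List.map_replicate, hc₀, List.map_nil] at hx ⊢
        rw [comb, comb_cons_replicate] at hx
        rw [comb, comb]
        exact hx

theorem not_question : ¬ Question := by
  intro h
  obtain ⟨A, ⟨hA, -⟩, hB⟩ := h 3 (by norm_num)
  obtain ⟨B, hB3, hAB, -⟩ := veryTardy_equiv (hA.veryTardy (by norm_num))
  exact hB B hB3 hAB

end Tardy
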