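import Pool.Agent.Lib.MP_d46290_lc.Core

open Nat.Partrec (Code)
open Encodable Denumerable

namespace Tardy

lemma mem_three {c₁ c₂ c₃ : Code} {L : ℕ} :
    L ∈ presented [c₁, c₂, c₃] ↔ (L ∈ W c₁ ∧ L ∉ W c₂) ∨ L ∈ W c₃ := by
  simp [presented, comb]

lemma mem_three_at {c₁ c₂ c₃ : Code} {L s : ℕ} :
    L ∈ presentedAt [c₁, c₂, c₃] s ↔
      (wb c₁ s L = true ∧ wb c₂ s L = false) ∨ wb c₃ s L = true := by
  simp [presentedAt, comb, mem_Wat]

lemma exists_bound (a : Code) (K : ℕ) : ∃ T, ∀ x < K, x ∈ W a → wb a T x = true := by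
  induction K with
  | zero => exact ⟨0, by simp⟩
  | succ K ih =>
      obtain ⟨T, hT⟩ := ih
      by_cases h : K ∈ W a
      · obtain ⟨t, ht⟩ := mem_W.1 h
        refine ⟨max T t, fun x hx hxa => ?_⟩
        rcases Nat.lt_succ_iff_lt_or_eq.1 hx with h' | h'
        · exact wb_mono (le_max_left _ _) (hT x h' hxa)
        · subst h'; exact wb_mono (le_max_right _ _) ht
      · refine ⟨T, fun x hx hxa => ?_⟩
        rcases Nat.lt_succ_iff_lt_or_eq.1 hx with h' | h'
        · exact hT x h' hxa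
        · subst h'; exact absurd hxa h

/-- the relation defining `X₃` -/
def R3 (a : Code) (P : List Code) (e K T t L : ℕ) : Prop :=
  (L.unpair.1 < K ∧ ¬ Fst a T L) ∨
    (K ≤ L.unpair.1 ∧ (comp e L.unpair.1 L.unpair.2 < rr P L.unpair.1 t ∨
      (wb a t L.unpair.1 = true ∧ ¬ Fst a t L)))

lemma primrec_R3 (a : Code) (P : List Code) (e K T : ℕ) :
    PrimrecPred fun q : ℕ × ℕ => R3 a P e K T q.1 q.2 := by
  have hx : Primrec (fun q : ℕ × ℕ => q.2.unpair.1) :=
    Primrec.fst.comp (Primrec.unpair.comp Primrec.snd)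
  have hc : Primrec (fun q : ℕ × ℕ => q.2.unpair.2) :=
    Primrec.snd.comp (Primrec.unpair.comp Primrec.snd)
  refine PrimrecPred.or (PrimrecPred.and ?_ (PrimrecPred.not ?_))
    (PrimrecPred.and ?_ (PrimrecPred.or ?_ (PrimrecPred.and ?_ (PrimrecPred.not ?_))))
  · exact Primrec.nat_lt.comp hx (Primrec.const K)
  · exact (primrec_Fst a).comp (Primrec.const T) Primrec.snd
  · exact Primrec.nat_le.comp (Primrec.const K) hx
  · exact Primrec.nat_lt.comp (primrec_comp.comp (((Primrec.const e).pair hx).pair hc))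
      (primrec_rr.comp (((Primrec.const P).pair hx).pair Primrec.fst))
  · exact primrec_eqTrue ((primrec_wbp a).comp Primrec.fst hx)
  · exact (primrec_Fst a).comp Primrec.fst Primrec.snd

lemma primrec_R1 (e K : ℕ) : PrimrecPred fun q : ℕ × ℕ =>
    K ≤ q.2.unpair.1 ∧ 1 ≤ comp e q.2.unpair.1 q.2.unpair.2 := by
  have hx : Primrec (fun q : ℕ × ℕ => q.2.unpair.1) :=
    Primrec.fst.comp (Primrec.unpair.comp Primrec.snd)
  have hc : Primrec (fun q : ℕ × ℕ => q.2.unpair.2) :=
    Primrec.snd.comp (Primrec.unpair.comp Primrec.snd)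
  exact PrimrecPred.and (Primrec.nat_le.comp (Primrec.const K) hx)
    (Primrec.nat_le.comp (Primrec.const 1)
      (primrec_comp.comp (((Primrec.const e).pair hx).pair hc)))

theorem core (a : Code)
    (H : ∀ p : ℕ → ℕ, Monotone p → Computable p → ∃ P : List Code,
      presented P = (W a)ᶜ ∧ ∀ x s, inb s x P = true → wb a (p s) x = false)
    (p : ℕ → ℕ) (hpm : Monotone p) (hpc : Computable p) :
    ∃ P : List Code, P.length = 3 ∧ presented P = (Bset a)ᶜ ∧
      ∀ L s, L ∈ presentedAt P s → ¬ Fst a (p s) L := by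
  classical
  obtain ⟨c₂, hc₂⟩ := exists_code₂ V2 (by
    exact primrec_V2)
  obtain ⟨f, hf, hf'⟩ := exists_delay c₂ hc₂
  obtain ⟨q, hqc, hqm, hqs, hqd⟩ := dominate (fun eu => p (f (eu.1, eu.2 + 1))) (by
    exact hpc.comp (hf.comp (Computable.fst.pair (Computable.succ.comp Computable.snd))))
  obtain ⟨P, hL, hT⟩ := H q hqm hqc
  set e : ℕ := encode P with he
  have hPe : pres e = P := pres_encode P
  set N : ℕ := (Finset.range (e + 1)).sup fun u => p (f (e, u)) with hN
  have hN' : ∀ u ≤ e, p (f (e, u)) ≤ N := fun u hu =>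
    Finset.le_sup (f := fun u => p (f (e, u))) (Finset.mem_range.2 (Nat.lt_succ_of_le hu))
  set K : ℕ := max (e + 1) N with hK
  obtain ⟨T, hTK⟩ := exists_bound a K
  obtain ⟨c₁, hc₁⟩ := exists_code (fun _ L => K ≤ L.unpair.1 ∧
    1 ≤ comp e L.unpair.1 L.unpair.2) (primrec_R1 e K)
  obtain ⟨c₃, hc₃⟩ := exists_code (R3 a P e K T) (primrec_R3 a P e K T)
  have hc₁' : ∀ L, L ∈ W c₁ ↔ K ≤ L.unpair.1 ∧ 1 ≤ comp e L.unpair.1 L.unpair.2 := by
    intro L
    rw [hc₁]
    exact ⟨fun ⟨_, h⟩ => h, fun h => ⟨0, h⟩⟩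
  have heK : ∀ {x}, K ≤ x → e < x := fun hx => lt_of_lt_of_le (Nat.lt_succ_self e)
    ((le_max_left _ _).trans hx)
  have hcomp : ∀ {x s}, K ≤ x → comp e x (loc x s) = rr P x s := by
    intro x s hx
    rw [comp_loc s (heK hx), hPe]
  -- claim 1
  have claim1 : ∀ L, L ∈ W c₃ → L ∉ Bset a := by
    intro L hL3 hB
    obtain ⟨t, ht⟩ := (hc₃ L).1 hL3
    rcases ht with ⟨h1, h2⟩ | ⟨h1, h2 | ⟨h2, h3⟩⟩
    · exact h2 ((Fst_of (hTK _ h1 (fst_mem_of_Bset hB))).1 hB)
    · obtain ⟨_, s, -, -, hs2, hs3⟩ := hB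
      rw [hs3, hcomp h1] at h2
      by_cases hts : t ≤ s + 1
      · have := rr_mono P L.unpair.1 hts
        omega
      · have := rr_const hqs hT hs2 (not_le.1 hts).le
        omega
    · exact h3 ((Fst_of h2).1 hB)
  -- claim 2
  have claim2 : ∀ L, L ∈ Bset a → L ∈ W c₁ → ∃ u, V2 e u L := by
    intro L hB hL1
    obtain ⟨hK1, hj⟩ := (hc₁' L).1 hL1
    obtain ⟨_, s, -, -, hs2, hs3⟩ := hB
    refine ⟨s + 1, V2_iff.2 ⟨hj, s + 1, le_rfl, ?_, ?_⟩⟩
    · rw [hs3, hcomp hK1, hPe]
    · rw [hPe]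
      by_contra hcon
      have hcon' : inb (s + 1) L.unpair.1 P = true := by simpa using hcon
      have h2 := hT _ _ hcon'
      rw [wb_mono (hqs _) hs2] at h2
      simp at h2
  refine ⟨[c₁, Code.curry c₂ e, c₃], rfl, ?_, ?_⟩
  · ext L
    rw [mem_three, Set.mem_compl_iff]
    constructor
    · rintro (⟨h1, h2⟩ | h3) hB
      · exact h2 ((hc₂ e L).2 (claim2 L hB h1))
      · exact claim1 L h3 hB
    · intro hB
      by_cases hxK : L.unpair.1 < K
      · exact Or.inr ((hc₃ L).2 ⟨0, Or.inl ⟨hxK, fun h => hB ⟨T, h⟩⟩⟩)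
      · rw [not_lt] at hxK
        by_cases hxA : L.unpair.1 ∈ W a
        · obtain ⟨t, ht⟩ := mem_W.1 hxA
          exact Or.inr ((hc₃ L).2 ⟨t, Or.inr ⟨hxK, Or.inr ⟨ht, fun h => hB ⟨t, h⟩⟩⟩⟩)
        · by_cases hr : ∃ t, comp e L.unpair.1 L.unpair.2 < rr P L.unpair.1 t
          · obtain ⟨t, ht⟩ := hr
            exact Or.inr ((hc₃ L).2 ⟨t, Or.inr ⟨hxK, Or.inl ht⟩⟩)
          · push Not at hr
            obtain ⟨s₀, hs₀⟩ := inb_limit L.unpair.1 P
            have hin : ∀ s ≥ s₀, inb s L.unpair.1 P = true := by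
              intro s hs
              rw [hs₀ s hs, hL]
              exact hxA
            have h1 : 1 ≤ comp e L.unpair.1 L.unpair.2 := by
              have h2 := rr_lt (inb_zero L.unpair.1 P) (w := s₀ + 1) (by omega)
                (hin _ (by omega))
              have h3 := hr (s₀ + 1)
              omega
            refine Or.inl ⟨(hc₁' L).2 ⟨hxK, h1⟩, fun hcon => ?_⟩
            obtain ⟨u, hu⟩ := (hc₂ e L).1 hcon
            obtain ⟨-, v, -, hv1, hv2⟩ := V2_iff.1 hu
            rw [hPe] at hv1 hv2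
            have h4 := rr_lt hv2 (w := max s₀ (v + 1)) (by
              have := le_max_right s₀ (v + 1); omega) (hin _ (le_max_left _ _))
            have h5 := hr (max s₀ (v + 1))
            omega
  · intro L s hLs hF
    have hB : L ∈ Bset a := ⟨_, hF⟩
    rw [mem_three_at] at hLs
    rcases hLs with ⟨h1, h2⟩ | h3
    · have hL1 : L ∈ W c₁ := mem_W.2 ⟨s, h1⟩
      obtain ⟨hK1, hj⟩ := (hc₁' L).1 hL1
      have hex := claim2 L hB hL1
      obtain ⟨t, ht, hs1, hs2, hs3⟩ := hF
      set u := Nat.find hex with hu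
      have hVu : V2 e u L := Nat.find_spec hex
      have hmin : ∀ m < u, ¬ V2 e m L := fun m hm => Nat.find_min hex hm
      obtain ⟨-, v, hvu, hv1, hv2⟩ := V2_iff.1 hVu
      rw [hPe] at hv1 hv2
      -- `L` is below the bound
      have hxv : L.unpair.1 < v := rr_lt_stage (by rw [hv1]; exact hj)
      have hbd : L < bd u := by
        have hc : L.unpair.2 < (u + 1) ^ u := by
          rw [hs3]
          refine (loc_lt _ _).trans_le ?_
          exact (Nat.pow_le_pow_left (by omega) _).trans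
            (Nat.pow_le_pow_right (by omega) (by omega))
        have hp : L = Nat.pair L.unpair.1 L.unpair.2 := (Nat.pair_unpair L).symm
        rw [hp, bd]
        exact (Nat.pair_lt_pair_left _ (by omega)).trans (Nat.pair_lt_pair_right _ hc)
      have hwb : wb (Code.curry c₂ e) (f (e, u)) L = true := hf' e u L hbd hVu
      have hsf : s < f (e, u) := by
        by_contra hcon
        rw [wb_mono (not_lt.1 hcon) hwb] at h2
        simp at h2
      have htp : t + 1 ≤ p (f (e, u)) := ht.trans_le (hpm hsf.le)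
      have hu0 : u ≠ 0 := by
        intro h0
        have hv0 : v = 0 := by omega
        rw [hv0] at hxv
        omega
      obtain ⟨u', hu'⟩ := Nat.exists_eq_succ_of_ne_zero hu0
      have hnot := hmin u' (by omega)
      have hvu' : v = u' + 1 := by
        by_contra hcon
        exact hnot (V2_iff.2 ⟨hj, v, by omega, by rw [hPe]; exact hv1, by rw [hPe]; exact hv2⟩)
      have hin : inb u' L.unpair.1 P = true := by
        by_contra hcon
        have hcon' : inb u' L.unpair.1 P = false := by simpa using hcon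
        refine hnot (V2_iff.2 ⟨hj, u', le_rfl, ?_, by rw [hPe]; exact hcon'⟩)
        rw [hPe, ← hv1, hvu']
        rw [hvu'] at hv2
        simp [rr, hv2]
      have hout := hT _ _ hin
      by_cases heu : e ≤ u'
      · have h4 : p (f (e, u)) ≤ q u' := by
          have := hqd e u' heu
          rw [hu']
          exact this
        rw [wb_mono (htp.trans h4) hs2] at hout
        simp at hout
      · have h5 : p (f (e, u)) ≤ N := hN' u (by omega)
        have h6 := wb_lt hs2
        have h7 : N ≤ L.unpair.1 := (le_max_right _ _).trans hK1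
        omega
    · exact claim1 L (mem_W.2 ⟨s, h3⟩) hB

end Tardy
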